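import Mathlib

/-!
# SYM-A6: density, abstract form
-/

set_option autoImplicit false

namespace Pool.Agent.Helper61.SYM

open MvPolynomial IsLocalRing

section

variable {R : Type*} [CommRing R] {N : ℕ}

/-- Taylor expansion of order two. -/
lemma taylor (Γ : MvPolynomial (Fin N) R) (u v : Fin N → R) (d : R) :
    ∃ c : R, eval (u + d • v) Γ =
      eval u Γ + d * ∑ l, eval u (pderiv l Γ) * v l + d ^ 2 * c := by
  induction Γ using MvPolynomial.induction_on with
  | C a => exact ⟨0, by simp⟩
  | add P Q hP hQ =>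
    obtain ⟨c, hc⟩ := hP
    obtain ⟨c', hc'⟩ := hQ
    refine ⟨c + c', ?_⟩
    simp only [map_add, hc, hc', add_mul, Finset.sum_add_distrib]
    ring
  | mul_X P n hP =>
    obtain ⟨c, hc⟩ := hP
    obtain ⟨A, hA⟩ : ∃ A, A = ∑ l, eval u (pderiv l P) * v l := ⟨_, rfl⟩
    rw [← hA] at hc
    refine ⟨A * v n + c * u n + d * c * v n, ?_⟩
    have h1 : ∑ l, eval u (pderiv l (P * X n)) * v l = A * u n + eval u P * v n := by
      simp only [pderiv_mul, map_add, map_mul, eval_X, add_mul, Finset.sum_add_distrib]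
      congr 1
      · rw [hA, Finset.sum_mul]
        exact Finset.sum_congr rfl fun l _ => by ring
      · rw [Finset.sum_eq_single n]
        · simp
        · intro b _ hb
          rw [pderiv_X_of_ne (Ne.symm hb)]
          simp
        · simp
    rw [h1, map_mul, eval_X, hc]
    simp only [Pi.add_apply, Pi.smul_apply, smul_eq_mul, map_mul, eval_X]
    ring

lemma dvd_of_mulVec {V : Matrix (Fin N) (Fin N) R} (hV : IsUnit V.det) (g : Fin N → R) (d : R)
    (h : ∀ i, d ∣ (V.mulVec g) i) (l : Fin N) : d ∣ g l := by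
  have h1 : g = V⁻¹.mulVec (V.mulVec g) := by
    rw [Matrix.mulVec_mulVec, Matrix.nonsing_inv_mul V hV, Matrix.one_mulVec]
  rw [h1]
  change d ∣ ∑ i, V⁻¹ l i * (V.mulVec g) i
  exact Finset.dvd_sum fun i _ => Dvd.dvd.mul_left (h i) _

lemma isUnit_det_of_sub [IsLocalRing R] {V W : Matrix (Fin N) (Fin N) R} (hW : IsUnit W.det)
    (h : ∀ i j, V i j - W i j ∈ maximalIdeal R) : IsUnit V.det := by
  have h1 : residue R V.det = residue R W.det := by
    rw [RingHom.map_det, RingHom.map_det]
    congr 1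
    ext i j
    simp only [RingHom.mapMatrix_apply, Matrix.map_apply]
    rw [← sub_eq_zero, ← map_sub]
    exact (residue_eq_zero_iff _).mpr (h i j)
  exact isUnit_of_map_unit (residue R) _ (h1 ▸ hW.map _)

end

/-- A6: density, abstract form -/
theorem dens {R : Type*} [CommRing R] [IsDomain R] [CharZero R] [IsLocalRing R] {N : ℕ} (p : ℕ)
    (hp0 : p ≠ 0) (hp : (p : R) ∈ maximalIdeal R) (hsep : ∀ x : R, (∀ k : ℕ, (p : R) ^ k ∣ x) → x = 0)
    (S : Set (Fin N → R)) (u₀ : Fin N → R) (hu₀ : u₀ ∈ S)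
    (hplus : ∀ (δ₁ δ₂ : R) (x y : Fin N → R), δ₁ * δ₂ ∈ maximalIdeal R → u₀ + δ₁ • x ∈ S →
      u₀ + δ₂ • y ∈ S → ∃ z : Fin N → R, u₀ + δ₁ • x + δ₂ • y + (δ₁ * δ₂) • z ∈ S)
    (x₀ : Fin N → (Fin N → R)) (hx₀ : ∀ i, u₀ + (p : R) ^ 2 • x₀ i ∈ S)
    (hdet : IsUnit (Matrix.of x₀).det) (Γ : MvPolynomial (Fin N) R) (hΓ : Γ ≠ 0) :
    ∃ u ∈ S, MvPolynomial.eval u Γ ≠ 0 := by
  have hpR : (p : R) ≠ 0 := by exact_mod_cast hp0
  -- multiples
  have hmult : ∀ (k : ℕ) (X : Fin N → R), u₀ + (p : R) ^ (k + 2) • X ∈ S → ∀ m : ℕ,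
      ∃ Y : Fin N → R, u₀ + (((m + 1 : ℕ) : R) * (p : R) ^ (k + 2)) • X +
        ((p : R) ^ (k + 2) * (p : R) ^ (k + 2)) • Y ∈ S := by
    intro k X hX m
    have hδ : (p : R) ^ (k + 2) * (p : R) ^ (k + 2) ∈ maximalIdeal R := by
      apply Ideal.mul_mem_left
      exact Ideal.pow_mem_of_mem _ hp _ (by omega)
    induction m with
    | zero => exact ⟨0, by simpa using hX⟩
    | succ m ih =>
      obtain ⟨Y, hY⟩ := ih
      have h1 : u₀ + (p : R) ^ (k + 2) • (((m + 1 : ℕ) : R) • X + (p : R) ^ (k + 2) • Y) ∈ S := by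
        convert hY using 1
        ext l
        simp only [Pi.add_apply, Pi.smul_apply, smul_eq_mul]
        ring
      obtain ⟨z, hz⟩ := hplus _ _ _ _ hδ h1 hX
      refine ⟨Y + z, ?_⟩
      convert hz using 1
      ext l
      simp only [Pi.add_apply, Pi.smul_apply, smul_eq_mul]
      push_cast
      ring
  -- starting vectors at all levels
  have hlev : ∀ (i : Fin N) (k : ℕ), ∃ d : Fin N → R,
      u₀ + (p : R) ^ (k + 2) • (x₀ i + (p : R) • d) ∈ S := by
    intro i k
    induction k with
    | zero => exact ⟨0, by simpa using hx₀ i⟩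
    | succ k ih =>
      obtain ⟨d, hd⟩ := ih
      obtain ⟨Y, hY⟩ := hmult k _ hd (p - 1)
      refine ⟨d + (p : R) ^ k • Y, ?_⟩
      convert hY using 1
      ext l
      simp only [Pi.add_apply, Pi.smul_apply, smul_eq_mul]
      rw [Nat.sub_add_cancel (Nat.pos_of_ne_zero hp0)]
      ring
  -- points near `u₀`
  have hder : ∀ Q : MvPolynomial (Fin N) R,
      (∀ x : Fin N → R, u₀ + (p : R) • x ∈ S → eval (u₀ + (p : R) • x) Q = 0) →
      ∀ l, ∀ x : Fin N → R, u₀ + (p : R) • x ∈ S →
        eval (u₀ + (p : R) • x) (pderiv l Q) = 0 := by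
    intro Q hQ l x hx
    apply hsep
    intro k
    have hv : ∀ i : Fin N, ∃ v : Fin N → R, (∀ j, v j - x₀ i j ∈ maximalIdeal R) ∧
        u₀ + (p : R) • x + (p : R) ^ (k + 2) • v ∈ S := by
      intro i
      obtain ⟨d, hd⟩ := hlev i k
      have hδ : (p : R) * (p : R) ^ (k + 2) ∈ maximalIdeal R := Ideal.mul_mem_right _ _ hp
      obtain ⟨z, hz⟩ := hplus _ _ _ _ hδ hx hd
      refine ⟨x₀ i + (p : R) • d + (p : R) • z, ?_, ?_⟩
      · intro j
        have : (x₀ i + (p : R) • d + (p : R) • z) j - x₀ i j = (p : R) * (d j + z j) := by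
          simp only [Pi.add_apply, Pi.smul_apply, smul_eq_mul]
          ring
        rw [this]
        exact Ideal.mul_mem_right _ _ hp
      · convert hz using 1
        ext l
        simp only [Pi.add_apply, Pi.smul_apply, smul_eq_mul]
        ring
    choose v hv1 hv2 using hv
    have hunit : IsUnit (Matrix.of v).det :=
      isUnit_det_of_sub hdet fun i j => hv1 i j
    have hdvd : ∀ i, (p : R) ^ (k + 2) ∣
        ((Matrix.of v).mulVec fun l => eval (u₀ + (p : R) • x) (pderiv l Q)) i := by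
      intro i
      have h0 : eval (u₀ + (p : R) • x + (p : R) ^ (k + 2) • v i) Q = 0 := by
        have h1 : u₀ + (p : R) • x + (p : R) ^ (k + 2) • v i =
            u₀ + (p : R) • (x + (p : R) ^ (k + 1) • v i) := by
          ext l
          simp only [Pi.add_apply, Pi.smul_apply, smul_eq_mul]
          ring
        have h2 := hv2 i
        rw [h1] at h2 ⊢
        exact hQ _ h2
      obtain ⟨c, hc⟩ := taylor Q (u₀ + (p : R) • x) (v i) ((p : R) ^ (k + 2))
      rw [h0, hQ x hx, zero_add] at hc
      have hpk : (p : R) ^ (k + 2) ≠ 0 := pow_ne_zero _ hpR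
      have h3 : (∑ l, eval (u₀ + (p : R) • x) (pderiv l Q) * v i l) +
          (p : R) ^ (k + 2) * c = 0 := by
        have : (p : R) ^ (k + 2) * ((∑ l, eval (u₀ + (p : R) • x) (pderiv l Q) * v i l) +
          (p : R) ^ (k + 2) * c) = 0 := by
          rw [hc]; ring
        exact (mul_eq_zero.mp this).resolve_left hpk
      refine ⟨-c, ?_⟩
      have h4 : ((Matrix.of v).mulVec fun l => eval (u₀ + (p : R) • x) (pderiv l Q)) i =
          ∑ l, eval (u₀ + (p : R) • x) (pderiv l Q) * v i l := by
        simp only [Matrix.mulVec, dotProduct, Matrix.of_apply]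
        exact Finset.sum_congr rfl fun l _ => mul_comm _ _
      rw [h4]
      linear_combination h3
    have h5 := dvd_of_mulVec hunit _ _ hdvd l
    exact dvd_trans (pow_dvd_pow _ (by omega)) h5
  -- polynomials vanishing near `u₀` are zero
  have hzero : ∀ (n : ℕ) (Q : MvPolynomial (Fin N) R),
      (∀ m : Fin N →₀ ℕ, n ≤ m.degree → coeff m Q = 0) →
      (∀ x : Fin N → R, u₀ + (p : R) • x ∈ S → eval (u₀ + (p : R) • x) Q = 0) → Q = 0 := by
    intro n
    induction n with
    | zero =>
      intro Q hQ _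
      ext m
      simpa using hQ m (Nat.zero_le _)
    | succ n ih =>
      intro Q hQ hQ0
      have hd : ∀ l, pderiv l Q = 0 := by
        intro l
        apply ih _ _ (hder Q hQ0 l)
        intro m hm
        rw [coeff_pderiv, hQ, zero_mul]
        rw [map_add, Finsupp.degree_single]
        omega
      have hc : ∀ m : Fin N →₀ ℕ, m ≠ 0 → coeff m Q = 0 := by
        intro m hm
        obtain ⟨l, hl⟩ : ∃ l, m l ≠ 0 := by
          by_contra hcon
          push Not at hcon
          exact hm (Finsupp.ext hcon)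
        have h1 : m = (m - Finsupp.single l 1) + Finsupp.single l 1 := by
          ext j
          by_cases hj : j = l
          · subst hj
            simp
            omega
          · simp [Ne.symm hj]
        have h2 : coeff (m - Finsupp.single l 1) (pderiv l Q) = 0 := by rw [hd l]; simp
        rw [coeff_pderiv, ← h1] at h2
        rcases mul_eq_zero.mp h2 with h3 | h3
        · exact h3
        · exfalso
          exact Nat.cast_add_one_ne_zero _ h3
      have hQC : Q = C (coeff 0 Q) := by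
        ext m
        rw [coeff_C]
        split_ifs with h
        · rw [← h]
        · exact hc m (Ne.symm h)
      have h0 := hQ0 0 (by simpa using hu₀)
      rw [hQC, eval_C] at h0
      rw [hQC, h0, C_0]
  by_contra hcon
  push Not at hcon
  apply hΓ
  refine hzero (Γ.totalDegree + 1) Γ ?_ fun x hx => hcon _ hx
  intro m hm
  by_contra hne
  have h1 : m ∈ Γ.support := by rwa [mem_support_iff]
  have h2 := le_totalDegree h1
  have h3 : m.degree = m.sum fun _ e => e := by
    simp [Finsupp.degree, Finsupp.sum]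
  omega

end Pool.Agent.Helper61.SYM
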